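import Mathlib
import Pool.Agent.Lib.helper23.MaassL

namespace Pool.Agent.Results.MP_17f4cb_nt.OddMaass

open Complex Filter Topology

/-- `U` is a Hecke-Maass cusp form of weight zero for `SL(2, ℤ)`, with Laplace eigenvalue `μ` and
normalised Hecke eigenvalues `lam p` (only the values on the upper half plane matter). -/
structure IsHeckeMaass (U : ℂ → ℂ) (μ : ℂ) (lam : ℕ → ℂ) : Prop where
  smooth : ContDiffOn ℝ (⊤ : ℕ∞) U {z | 0 < z.im}
  nonzero : ∃ z : ℂ, 0 < z.im ∧ U z ≠ 0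
  modular : ∀ a b c d : ℤ, a * d - b * c = 1 → ∀ z : ℂ, 0 < z.im →
    U ((a * z + b) / (c * z + d)) = U z
  laplace : ∀ z : ℂ, 0 < z.im → -((z.im : ℂ)) ^ 2 *
    (deriv (deriv fun t : ℝ => U (z + t)) 0 + deriv (deriv fun t : ℝ => U (z + t * I)) 0) = μ * U z
  bounded : ∃ M : ℝ, ∀ z : ℂ, 0 < z.im → ‖U z‖ ≤ M
  cuspidal : ∀ y : ℝ, 0 < y → ∫ x in (0 : ℝ)..1, U (x + y * I) = 0
  parity : (∀ z : ℂ, 0 < z.im → U (-(starRingEnd ℂ) z) = U z) ∨
    ∀ z : ℂ, 0 < z.im → U (-(starRingEnd ℂ) z) = -U z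
  hecke : ∀ p : ℕ, p.Prime → ∀ z : ℂ, 0 < z.im →
    U (p * z) + ∑ b ∈ Finset.range p, U ((z + b) / p) = (√p : ℝ) * lam p * U z

/-- the local factor at `p` of the twisted `L`-function -/
noncomputable def localFactor (lam : ℕ → ℂ) {q : ℕ} (χ : DirichletCharacter ℂ q) (s : ℂ) (p : ℕ) :
    ℂ :=
  (1 - lam p * χ p * (p : ℂ) ^ (-s) + χ p ^ 2 * (p : ℂ) ^ (-2 * s))⁻¹

/-- `L` is the entire continuation of the twisted Euler product -/
def IsTwistL (lam : ℕ → ℂ) {q : ℕ} (χ : DirichletCharacter ℂ q) (L : ℂ → ℂ) : Prop :=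
  Differentiable ℂ L ∧ ∃ σ : ℝ, ∀ s : ℂ, σ < s.re →
    HasProd (fun p : Nat.Primes => localFactor lam χ s p) (L s)

/-- primitive quadratic characters: these are the characters of the quadratic fields, the modulus
being the absolute value of the discriminant -/
def IsQuad (d : Σ q : ℕ, DirichletCharacter ℂ q) : Prop :=
  1 < d.1 ∧ d.2.IsPrimitive ∧ d.2 ^ 2 = 1

/-- `N(x)` -/
noncomputable def countAll (x : ℝ) : ℕ := {d | IsQuad d ∧ (d.1 : ℝ) < x}.ncard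

/-- `N_π(x)` -/
noncomputable def countNonzero (lam : ℕ → ℂ) (x : ℝ) : ℕ :=
  {d | IsQuad d ∧ (d.1 : ℝ) < x ∧ ∃ L, IsTwistL lam d.2 L ∧ L (1 / 2) ≠ 0}.ncard

theorem uniq {lam : ℕ → ℂ} {q : ℕ} {χ : DirichletCharacter ℂ q} {L L' : ℂ → ℂ}
    (h : IsTwistL lam χ L) (h' : IsTwistL lam χ L') : L = L' := by
  obtain ⟨a, σ, b⟩ := h
  obtain ⟨a', σ', b'⟩ := h'
  refine AnalyticOnNhd.eq_of_eventuallyEq (z₀ := ((max σ σ' + 1 : ℝ) : ℂ))
    (fun z _ => a.analyticAt z) (fun z _ => a'.analyticAt z) ?_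
  filter_upwards [(isOpen_lt continuous_const continuous_re).mem_nhds
    (show max σ σ' < ((max σ σ' + 1 : ℝ) : ℂ).re by simp)] with s hs
  exact (b s ((le_max_left _ _).trans_lt hs)).unique (b' s ((le_max_right _ _).trans_lt hs))

theorem result : ∃ (U : ℂ → ℂ) (μ : ℂ) (lam : ℕ → ℂ), IsHeckeMaass U μ lam ∧
    (∀ d, IsQuad d → ∃ L, IsTwistL lam d.2 L ∧ L (1 / 2) = 0) ∧
    ¬ Tendsto (fun x : ℝ => (countNonzero lam x : ℝ) / countAll x) atTop (𝓝 (1 / 2)) := by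
  obtain ⟨U, μ, t, M, h⟩ := Pool.Agent.Lib.H23Maass.exists_HM
  have key : ∀ d, IsQuad d → ∃ L, IsTwistL (fun p => t p / (√p : ℝ)) d.2 L ∧ L (1 / 2) = 0 := by
    rintro ⟨q, χ⟩ ⟨h1, h2, h3⟩
    obtain ⟨L, l1, l2, l3⟩ := h.vanish (lt_trans one_pos h1) h2 h3
    exact ⟨L, ⟨l1, l3⟩, l2⟩
  refine ⟨U, μ, fun p => t p / (√p : ℝ), ⟨h.sm.sm, h.ne, h.inv.sl, h.lap, ⟨M, h.bd⟩,
    fun y hy => ?_, .inr h.inv.odd, fun p hp z hz => ?_⟩, key, fun hl => ?_⟩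
  · simpa [Lib.H23Maass.co, Lib.H23Maass.cf, Lib.H23Maass.ee] using h.co_zero hy
  · have : ((√p : ℝ) : ℂ) ≠ 0 := by
      exact_mod_cast (Real.sqrt_pos.2 (by exact_mod_cast hp.pos)).ne'
    rw [mul_div_cancel₀ _ this]
    exact h.hk p hp z hz
  · have e : ∀ x, countNonzero (fun p => t p / (√p : ℝ)) x = 0 := fun x => by
      unfold countNonzero
      refine (congrArg Set.ncard (Set.eq_empty_iff_forall_notMem.2 ?_)).trans (Set.ncard_empty _)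
      rintro d ⟨h1, -, L, h2, h3⟩
      obtain ⟨L', h4, h5⟩ := key d h1
      exact h3 (uniq h2 h4 ▸ h5)
    simp only [e, Nat.cast_zero, zero_div] at hl
    have := tendsto_nhds_unique hl tendsto_const_nhds
    norm_num at this

end Pool.Agent.Results.MP_17f4cb_nt.OddMaass
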